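import Mathlib

set_option autoImplicit false

/-!
# 2-queue layouts: reduction to the square of a path plus one queue, and 7 colours
-/

namespace Pool.Agent.W708.TQ

/-- No two strictly nested pairs. -/
def NN (E : ℕ → ℕ → Prop) : Prop :=
  ∀ a b c d : ℕ, a < b → b < c → c < d → E a d → E b c → False

/-- `c` is a proper colouring of the vertices `0, ..., n-1` for the pairs in `E` or `F`. -/
def Good {κ : Type} (n : ℕ) (E F : ℕ → ℕ → Prop) (c : ℕ → κ) : Prop :=
  ∀ i j : ℕ, i < j → j < n → (E i j ∨ F i j) → c i ≠ c j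

/-! ## One queue and the square of the path, 7 colours -/

section turn

open Classical in
/-- The start of the next turn. -/
noncomputable def nxt (n : ℕ) (F : ℕ → ℕ → Prop) (s : ℕ) : ℕ :=
  max (s + 1) (((Finset.range n).filter (fun r => ∃ p, p < s ∧ F p r)).sup id)

variable {n : ℕ} {F : ℕ → ℕ → Prop}

lemma lt_nxt (s : ℕ) : s < nxt n F s := by
  unfold nxt
  exact lt_of_lt_of_le (Nat.lt_succ_self s) (le_max_left _ _)

lemma le_nxt {s p r : ℕ} (hp : p < s) (hr : r < n) (h : F p r) : r ≤ nxt n F s := by
  classical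
  unfold nxt
  refine le_trans ?_ (le_max_right _ _)
  have hm : r ∈ (Finset.range n).filter (fun r => ∃ p, p < s ∧ F p r) := by
    simp only [Finset.mem_filter, Finset.mem_range]
    exact ⟨hr, p, hp, h⟩
  have h2 := Finset.le_sup (f := id) hm
  simp only [id] at h2
  convert h2

lemma no_inside (hF : NN F) {s p r : ℕ} (h1 : s ≤ p) (h2 : p < r) (h3 : r < nxt n F s) :
    ¬ F p r := by
  classical
  intro h
  set S := (Finset.range n).filter (fun r => ∃ p, p < s ∧ F p r) with hS
  have hlt : r < S.sup id := by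
    have h4 : r < max (s + 1) (S.sup id) := by
      have : nxt n F s = max (s + 1) (S.sup id) := by
        unfold nxt; rw [hS]
      rw [← this]; exact h3
    rcases lt_max_iff.mp h4 with h5 | h5
    · omega
    · exact h5
  rw [Finset.lt_sup_iff] at hlt
  obtain ⟨d, hd, hrd⟩ := hlt
  simp only [hS, Finset.mem_filter, Finset.mem_range, id] at hd hrd
  obtain ⟨_, q, hq, hqd⟩ := hd
  exact hF q p r d (by omega) h2 hrd hqd h

/-- The start of turn `j`. -/
noncomputable def st (n : ℕ) (F : ℕ → ℕ → Prop) : ℕ → ℕ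
  | 0 => 0
  | j + 1 => nxt n F (st n F j)

lemma st_lt_succ (j : ℕ) : st n F j < st n F (j + 1) := lt_nxt _

lemma st_strictMono : StrictMono (st n F) := strictMono_nat_of_lt_succ st_lt_succ

lemma le_st (j : ℕ) : j ≤ st n F j := st_strictMono.le_apply

open Classical in
/-- The number of the turn of the vertex `v`. -/
noncomputable def tn (n : ℕ) (F : ℕ → ℕ → Prop) (v : ℕ) : ℕ :=
  Nat.findGreatest (fun j => st n F j ≤ v) v

lemma st_tn_le (v : ℕ) : st n F (tn n F v) ≤ v := by
  classical
  unfold tn
  have := Nat.findGreatest_spec (P := fun j => st n F j ≤ v) (m := 0) (n := v) (Nat.zero_le _)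
    (by simp [st])
  exact this

lemma lt_st_tn (v : ℕ) : v < st n F (tn n F v + 1) := by
  classical
  by_contra hcon
  push Not at hcon
  have h1 : tn n F v + 1 ≤ v := le_trans (le_st (n := n) (F := F) _) hcon
  have h2 := Nat.findGreatest_is_greatest (P := fun j => st n F j ≤ v) (n := v)
    (k := tn n F v + 1) (by unfold tn; exact Nat.lt_succ_self _) h1
  exact h2 hcon

/-- The 7-colouring: `3 * turn + position mod 3`, modulo 7. -/
noncomputable def col (n : ℕ) (F : ℕ → ℕ → Prop) (v : ℕ) : Fin 7 :=
  ⟨(3 * tn n F v + (v - st n F (tn n F v)) % 3) % 7, Nat.mod_lt _ (by norm_num)⟩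

theorem col_proper (hF : NN F) {i j : ℕ} (hij : i < j) (hj : j < n)
    (h : j ≤ i + 2 ∨ F i j) : col n F i ≠ col n F j := by
  intro hc
  have hc' : (3 * tn n F i + (i - st n F (tn n F i)) % 3) % 7
      = (3 * tn n F j + (j - st n F (tn n F j)) % 3) % 7 := by
    have := congrArg Fin.val hc
    simpa [col] using this
  have hi1 := st_tn_le (n := n) (F := F) i
  have hi2 := lt_st_tn (n := n) (F := F) i
  have hj1 := st_tn_le (n := n) (F := F) j
  have hj2 := lt_st_tn (n := n) (F := F) j
  set a := tn n F i with ha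
  set b := tn n F j with hb
  -- `a ≤ b`
  have hab : a ≤ b := by
    by_contra hcon
    push Not at hcon
    have h1 : st n F (b + 1) ≤ st n F a := st_strictMono.monotone (by omega)
    omega
  -- `j ≤ st (a+2)`
  have hub : j ≤ st n F (a + 2) := by
    have h12 : st n F (a + 1) < st n F (a + 2) := st_lt_succ _
    rcases h with h | h
    · omega
    · exact le_nxt (n := n) (F := F) (s := st n F (a + 1)) hi2 hj h
  have hb2 : b ≤ a + 2 := by
    by_contra hcon
    push Not at hcon
    have h1 : st n F (a + 3) ≤ st n F b := st_strictMono.monotone (by omega)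
    have h2 : st n F (a + 2) < st n F (a + 3) := st_lt_succ _
    omega
  rcases (by omega : b = a ∨ b = a + 1 ∨ b = a + 2) with h0 | h0 | h0
  · rw [h0] at hc' hj1 hj2
    have hnF : ¬ F i j := no_inside (n := n) hF hi1 hij hj2
    have hji : j ≤ i + 2 := by tauto
    omega
  · rw [h0] at hc' hj1 hj2
    omega
  · rw [h0] at hc' hj1 hj2
    have : j = st n F (a + 2) := le_antisymm hub hj1
    rw [← this] at hc'
    omega

end turn

/-! ## The reduction -/

/-- A permutation with prescribed values at three points. -/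
lemma exists_perm {κ : Type} [Fintype κ] [DecidableEq κ] (f g : Fin 3 → κ)
    (hf : Function.Injective f) (hg : Function.Injective g) :
    ∃ σ : Equiv.Perm κ, ∀ i, σ (f i) = g i := by
  classical
  let e : {x // x ∈ Set.range f} ≃ {x // x ∈ Set.range g} :=
    (Equiv.ofInjective f hf).symm.trans (Equiv.ofInjective g hg)
  refine ⟨e.extendSubtype, fun i => ?_⟩
  rw [Equiv.extendSubtype_apply_of_mem e (f i) ⟨i, rfl⟩]
  have h1 : (Equiv.ofInjective f hf).symm ⟨f i, ⟨i, rfl⟩⟩ = i :=
    Equiv.ofInjective_symm_apply hf i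
  simp only [e, Equiv.trans_apply]
  rw [h1]
  rfl

/-- If every layout on which one of the queues has only edges of length at most 2 can be coloured,
then every layout with two queues can. -/
theorem reduce (k : ℕ) (hk : 3 ≤ k)
    (H : ∀ (n : ℕ) (F : ℕ → ℕ → Prop), NN F →
      ∃ c : ℕ → Fin k, ∀ i j : ℕ, i < j → j < n → (j ≤ i + 2 ∨ F i j) → c i ≠ c j) :
    ∀ (n : ℕ) (E F : ℕ → ℕ → Prop), NN E → NN F → ∃ c : ℕ → Fin k, Good n E F c := by
  intro n
  induction n using Nat.strong_induction_on with
  | _ n ih =>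
  intro E F hE hF
  -- small n
  by_cases hn : n ≤ 3
  · refine ⟨fun v => if hv : v < 3 then ⟨v, by omega⟩ else ⟨0, by omega⟩, ?_⟩
    intro i j hij hjn _
    have h1 : i < 3 := by omega
    have h2 : j < 3 := by omega
    simp only [h1, h2, dif_pos]
    intro h
    have := congrArg Fin.val h
    simp only at this
    omega
  -- Case 1: two consecutive vertices are not adjacent
  by_cases hcons : ∃ t, t + 1 < n ∧ ¬ E t (t + 1) ∧ ¬ F t (t + 1)
  · obtain ⟨t, htn, hEt, hFt⟩ := hcons
    let π : ℕ → ℕ := fun i => if i ≤ t then i else i - 1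
    have πdef : ∀ i, π i = if i ≤ t then i else i - 1 := fun i => rfl
    have key : ∀ i j, π i < π j → i < j := by
      intro i j h
      rw [πdef, πdef] at h
      split_ifs at h <;> omega
    let push : (ℕ → ℕ → Prop) → ℕ → ℕ → Prop := fun R x y => ∃ a b, π a = x ∧ π b = y ∧ R a b
    have pushNN : ∀ R : ℕ → ℕ → Prop, NN R → NN (push R) := by
      rintro R hR x y z w hxy hyz hzw ⟨a, d, rfl, rfl, h1⟩ ⟨b, c, rfl, rfl, h2⟩
      exact hR a b c d (key _ _ hxy) (key _ _ hyz) (key _ _ hzw) h1 h2
    obtain ⟨c, hc⟩ := ih (n - 1) (by omega) (push E) (push F) (pushNN E hE) (pushNN F hF)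
    refine ⟨fun v => c (π v), ?_⟩
    intro i j hij hjn hadj
    have hne : ¬ (i = t ∧ j = t + 1) := by
      rintro ⟨rfl, rfl⟩
      rcases hadj with h | h
      · exact hEt h
      · exact hFt h
    refine hc (π i) (π j) ?_ ?_ ?_
    · rw [πdef, πdef]
      split_ifs <;> omega
    · rw [πdef]
      split_ifs <;> omega
    · rcases hadj with h | h
      · exact Or.inl ⟨i, j, rfl, rfl, h⟩
      · exact Or.inr ⟨i, j, rfl, rfl, h⟩
  push Not at hcons
  have hadj : ∀ t, t + 1 < n → E t (t + 1) ∨ F t (t + 1) := by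
    intro t ht
    by_cases h : E t (t + 1)
    · exact Or.inl h
    · exact Or.inr (hcons t ht h)
  -- the cut lemma
  have cut : ∀ t, 1 ≤ t → t + 3 < n →
      (∀ a b, a < t → t + 2 < b → b < n → ¬ (E a b ∨ F a b)) →
      ∃ c : ℕ → Fin k, Good n E F c := by
    intro t ht1 ht3 hsep
    have hEL : NN (fun i j => j ≤ t + 2 ∧ (E i j ∨ (i = t ∧ j = t + 2))) := by
      rintro a b c d hab hbc hcd ⟨h1, h2⟩ ⟨h3, h4⟩
      rcases h2 with h2 | ⟨rfl, rfl⟩
      · rcases h4 with h4 | ⟨rfl, rfl⟩
        · exact hE a b c d hab hbc hcd h2 h4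
        · omega
      · omega
    have hER : NN (fun i j => E (i + t) (j + t) ∨ (i = 0 ∧ j = 2)) := by
      rintro a b c d hab hbc hcd h2 h4
      rcases h2 with h2 | ⟨rfl, rfl⟩
      · rcases h4 with h4 | ⟨rfl, rfl⟩
        · exact hE (a + t) (b + t) (c + t) (d + t) (by omega) (by omega) (by omega) h2 h4
        · omega
      · omega
    have hFR : NN (fun i j => F (i + t) (j + t)) := by
      intro a b c d hab hbc hcd h2 h4
      exact hF (a + t) (b + t) (c + t) (d + t) (by omega) (by omega) (by omega) h2 h4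
    obtain ⟨cL, hL⟩ := ih (t + 3) (by omega) _ F hEL hF
    obtain ⟨cR, hR⟩ := ih (n - t) (by omega) _ _ hER hFR
    have L01 : cL t ≠ cL (t + 1) := by
      refine hL t (t + 1) (by omega) (by omega) ?_
      rcases hadj t (by omega) with h | h
      · exact Or.inl ⟨by omega, Or.inl h⟩
      · exact Or.inr h
    have L12 : cL (t + 1) ≠ cL (t + 2) := by
      refine hL (t + 1) (t + 2) (by omega) (by omega) ?_
      rcases hadj (t + 1) (by omega) with h | h
      · exact Or.inl ⟨by omega, Or.inl h⟩
      · exact Or.inr h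
    have L02 : cL t ≠ cL (t + 2) := by
      refine hL t (t + 2) (by omega) (by omega) ?_
      exact Or.inl ⟨by omega, Or.inr ⟨rfl, rfl⟩⟩
    have R01 : cR 0 ≠ cR 1 := by
      refine hR 0 1 (by omega) (by omega) ?_
      rcases hadj t (by omega) with h | h
      · refine Or.inl (Or.inl ?_)
        have e1 : 0 + t = t := by omega
        have e2 : 1 + t = t + 1 := by omega
        rw [e1, e2]; exact h
      · refine Or.inr ?_
        show F (0 + t) (1 + t)
        have e1 : 0 + t = t := by omega
        have e2 : 1 + t = t + 1 := by omega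
        rw [e1, e2]; exact h
    have R12 : cR 1 ≠ cR 2 := by
      refine hR 1 2 (by omega) (by omega) ?_
      rcases hadj (t + 1) (by omega) with h | h
      · refine Or.inl (Or.inl ?_)
        have e1 : 1 + t = t + 1 := by omega
        have e2 : 2 + t = t + 1 + 1 := by omega
        rw [e1, e2]; exact h
      · refine Or.inr ?_
        show F (1 + t) (2 + t)
        have e1 : 1 + t = t + 1 := by omega
        have e2 : 2 + t = t + 1 + 1 := by omega
        rw [e1, e2]; exact h
    have R02 : cR 0 ≠ cR 2 := by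
      refine hR 0 2 (by omega) (by omega) ?_
      exact Or.inl (Or.inr ⟨rfl, rfl⟩)
    obtain ⟨σ, hσ⟩ := exists_perm (κ := Fin k) (fun i : Fin 3 => cR i.val)
      (fun i : Fin 3 => cL (t + i.val))
      (by
        intro x y hxy
        simp only at hxy
        rcases x with ⟨x, hx⟩
        rcases y with ⟨y, hy⟩
        simp only [Fin.mk.injEq] at hxy ⊢
        interval_cases x <;> interval_cases y <;> simp_all)
      (by
        intro x y hxy
        simp only at hxy
        rcases x with ⟨x, hx⟩
        rcases y with ⟨y, hy⟩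
        simp only [Fin.mk.injEq] at hxy ⊢
        interval_cases x <;> interval_cases y <;> simp_all)
    have hσ' : ∀ v, t ≤ v → v ≤ t + 2 → σ (cR (v - t)) = cL v := by
      intro v h1 h2
      have := hσ ⟨v - t, by omega⟩
      simp only at this
      rw [this]
      congr 1
      omega
    refine ⟨fun v => if v ≤ t + 2 then cL v else σ (cR (v - t)), ?_⟩
    intro i j hij hjn hh
    have hval : ∀ v, t ≤ v → (if v ≤ t + 2 then cL v else σ (cR (v - t))) = σ (cR (v - t)) := by
      intro v hv
      split_ifs with h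
      · exact (hσ' v hv h).symm
      · rfl
    by_cases hj2 : j ≤ t + 2
    · have hi2 : i ≤ t + 2 := by omega
      simp only [hj2, hi2, if_true]
      refine hL i j hij (by omega) ?_
      rcases hh with h | h
      · exact Or.inl ⟨hj2, Or.inl h⟩
      · exact Or.inr h
    · by_cases hit : i < t
      · exact absurd hh (hsep i j hit (by omega) hjn)
      · push Not at hit
        show (if i ≤ t + 2 then cL i else σ (cR (i - t))) ≠
          (if j ≤ t + 2 then cL j else σ (cR (j - t)))
        rw [hval i hit, hval j (by omega)]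
        intro heq
        refine hR (i - t) (j - t) (by omega) (by omega) ?_ (σ.injective heq)
        have e1 : i - t + t = i := by omega
        have e2 : j - t + t = j := by omega
        rcases hh with h | h
        · refine Or.inl (Or.inl ?_)
          rw [e1, e2]; exact h
        · refine Or.inr ?_
          show F (i - t + t) (j - t + t)
          rw [e1, e2]; exact h
  -- Case 2: a change of queue
  by_cases hch : ∃ t, 1 ≤ t ∧ t + 3 < n ∧
      ((E t (t + 1) ∧ F (t + 1) (t + 2)) ∨ (F t (t + 1) ∧ E (t + 1) (t + 2)))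
  · obtain ⟨t, ht1, ht3, hcase⟩ := hch
    refine cut t ht1 ht3 ?_
    intro a b hat htb hbn hab
    rcases hcase with ⟨h1, h2⟩ | ⟨h1, h2⟩
    · rcases hab with h | h
      · exact hE a t (t + 1) b hat (by omega) (by omega) h h1
      · exact hF a (t + 1) (t + 2) b (by omega) (by omega) htb h h2
    · rcases hab with h | h
      · exact hE a (t + 1) (t + 2) b (by omega) (by omega) htb h h2
      · exact hF a t (t + 1) b hat (by omega) (by omega) h h1
  push Not at hch
  -- main case
  have main : ∀ E F : ℕ → ℕ → Prop, NN E → NN F →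
      (∀ t, 1 ≤ t → t + 2 < n → E t (t + 1)) → ∃ c : ℕ → Fin k, Good n E F c := by
    intro E F hE hF hall
    obtain ⟨c, hc⟩ := H n F hF
    refine ⟨c, ?_⟩
    intro i j hij hjn hh
    refine hc i j hij hjn ?_
    rcases hh with h | h
    · left
      by_contra hcon
      push Not at hcon
      exact hE i (i + 1) (i + 2) j (by omega) (by omega) hcon h (hall (i + 1) (by omega) (by omega))
    · exact Or.inr h
  rcases hadj 1 (by omega) with h1 | h1
  · refine main E F hE hF ?_
    intro t ht
    induction t, ht using Nat.le_induction with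
    | base => intro _; exact h1
    | succ t ht iht =>
      intro h3
      rcases hadj (t + 1) (by omega) with h | h
      · exact h
      · exact absurd h ((hch t ht (by omega)).1 (iht (by omega)))
  · obtain ⟨c, hc⟩ := main F E hF hE (by
      intro t ht
      induction t, ht using Nat.le_induction with
      | base => intro _; exact h1
      | succ t ht iht =>
        intro h3
        rcases hadj (t + 1) (by omega) with h | h
        · exact absurd h ((hch t ht (by omega)).2 (iht (by omega)))
        · exact h)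
    exact ⟨c, fun i j hij hjn hh => hc i j hij hjn hh.symm⟩

/-- From layouts on natural numbers to graphs on `Fin n`. -/
theorem toGraph (k : ℕ)
    (H : ∀ (n : ℕ) (E F : ℕ → ℕ → Prop), NN E → NN F → ∃ c : ℕ → Fin k, Good n E F c)
    (n : ℕ) (G : SimpleGraph (Fin n))
    (h : ∃ q : Fin n → Fin n → Fin 2,
        ∀ a b c d : Fin n, a < b → b < c → c < d →
          G.Adj a d → G.Adj b c → q a d ≠ q b c) : G.Colorable k := by
  obtain ⟨q, hq⟩ := h
  have hNN : ∀ z : Fin 2, NN (fun i j => ∃ (hi : i < n) (hj : j < n),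
      G.Adj ⟨i, hi⟩ ⟨j, hj⟩ ∧ q ⟨i, hi⟩ ⟨j, hj⟩ = z) := by
    rintro z a b c d hab hbc hcd ⟨ha, hd, h1, h2⟩ ⟨hb, hc, h3, h4⟩
    exact hq ⟨a, ha⟩ ⟨b, hb⟩ ⟨c, hc⟩ ⟨d, hd⟩ hab hbc hcd h1 h3 (h2.trans h4.symm)
  obtain ⟨c, hc⟩ := H n _ _ (hNN 0) (hNN 1)
  have key : ∀ i j : Fin n, i < j → G.Adj i j → c i.val ≠ c j.val := by
    intro i j hij hadj
    refine hc i.val j.val hij j.isLt ?_
    rcases (by omega : q i j = 0 ∨ q i j = 1) with hz | hz
    · exact Or.inl ⟨i.isLt, j.isLt, hadj, hz⟩
    · exact Or.inr ⟨i.isLt, j.isLt, hadj, hz⟩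
  refine ⟨SimpleGraph.Coloring.mk (fun v => c v.val) ?_⟩
  intro v w hvw
  rcases lt_trichotomy v w with h | h | h
  · exact key v w h hvw
  · exact absurd h hvw.ne
  · exact (key w v h hvw.symm).symm

theorem seven (n : ℕ) (G : SimpleGraph (Fin n))
    (h : ∃ q : Fin n → Fin n → Fin 2,
        ∀ a b c d : Fin n, a < b → b < c → c < d →
          G.Adj a d → G.Adj b c → q a d ≠ q b c) : G.Colorable 7 :=
  toGraph 7 (reduce 7 (by norm_num) (fun n F hF =>
    ⟨col n F, fun i j hij hj h => col_proper hF hij hj h⟩)) n G h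

end Pool.Agent.W708.TQ
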